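import Pool.Agent.R918.AV
import Pool.Agent.K1H15.K3.Av

set_option autoImplicit false

/-!
# The torsor of periods and the torsor of motivated periods of arbitrary products of Kuga-Satake
# varieties, elliptic curves and abelian varieties with real multiplication

Let `A` be an abelian variety over the field `K = ℚ̄` of algebraic numbers, and let `M = h^1(A)`. We
compare the torsor of periods `Ω^{dRB}_M` (defined by all de Rham-Betti classes in the tensor powers of
`M`) with the torsor of motivated periods `Ω^{And}_M`. By a theorem of André the Hodge classes on the
powers of `A` are motivated, so that `Ω^{And}_M` is defined by the Hodge classes; by a theorem of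
Deligne these are de Rham-Betti classes. As `M` is dual to `M(1)` it is sufficient to consider classes
in `M ^ {⊗ r} (w)`: such a class is given by a multilinear form `φ` with rational values in `r`
variables in `H_1(A, ℚ)` and by the array `c` of the coefficients (in `ℚ̄`) of its de Rham component,
and a point of a torsor is a pair `(F, t)` of an isomorphism `F` from `H^1_dR(A / ℚ̄) ⊗ ℂ` to
`H^1(A, ℂ)` and of a number `t` (the isomorphism for the Tate motive); the comparison isomorphism is
the point `(A.dR, 2 π i)`.

Nothing is assumed about periods: `AbVar` is the description of an abelian variety over `ℚ̄` by theta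
functions (see `Pool/Agent/Y102/AVDefs.lean`, where it is explained why every abelian variety has it),
and the transcendence theorem which is used is the theorem of Schneider and Lang, which is proved in
this repository.

Let `𝔤` be the Lie algebra of the endomorphisms of `H_1(A, ℚ)` that annihilate all classes which are at
the same time Hodge classes and de Rham-Betti classes (`InLie`); it is the Lie algebra of the Hodge
group of `A`.

**Theorem.** Assume that `H_1(A, ℂ)` has finitely many spin blocks (`IsSpin`): a block is given by
a projector `π` which commutes with `𝔤`, and by endomorphisms `E_i` of the image of `π`, each of which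
has a colour, with the relations `E_i ^ 2 = π`, `E_i E_j = - E_j E_i` of a Clifford algebra, such that
the action of `𝔤 ⊗ ℂ` on the image of `π` is that of the span of the products `E_i E_j` of two
different generators of the same colour, that is, the spin representation of a sum of orthogonal Lie
algebras, one for each colour. The blocks are not assumed to be independent of each other: nothing is
assumed on the position of `𝔤` in the product of its images. Assume that

* in each block all colours have exactly three generators, or all colours have at least six
  generators (`Three`, `SixOrMore`);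
* a block which has more than one colour is given by a rational projector, and the image of `𝔤` in it
  is simple over `ℚ` (`IsSimple`); and the other blocks of the same kind (three generators, or at least
  six generators for each colour) are rational, too; if every block has only one colour, nothing is
  assumed;
* the sum of the projectors is `1`, or `𝔤` is commutative outside of the blocks (the sum of the
  projectors acts as the identity on the brackets of elements of `𝔤`), with a rigid centre
  (`RigidCentre`, the condition used for `Results/MP_f11a48_ag/UnitaryKugaSatake.lean`).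

Then all de Rham-Betti classes in the tensor powers of `h^1(A)` are Hodge classes, and
`Ω^{dRB}_M = Ω^{And}_M`.

## Products of Kuga-Satake varieties

Let `X` be a K3 surface over `ℚ̄` (or a hyperkähler variety, or a cubic fourfold), let `T` be its
transcendental lattice, let the field `F` of the endomorphisms of the Hodge structure `T` be totally
real, and let `r` be the dimension of `T` over `F` (so `r ≥ 3` for K3 surfaces). By the theorem of
Zarhin the Hodge group of `T` is the special orthogonal group of `T` over `F`, and `T ⊗ ℂ` is the
orthogonal sum of spaces `T_σ` of dimension `r`, one for each embedding `σ` of `F`. The first homology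
of the Kuga-Satake variety `B` of `T` is the even Clifford algebra `C⁺(T)`. Choose orthonormal bases
`e_i` of the `T_σ`, and let `e` be one of these vectors. The operators `E_i : x ↦ e_i x e` on
`C⁺(T ⊗ ℂ)`, whose colour is `σ` if `e_i` is in `T_σ`, satisfy the conditions with `π = 1`, and
the Lie algebra of the Hodge group, which is `so(T)` over `F`, is simple over `ℚ` if `r ≠ 4`.

So let `A` be an abelian variety which is isogenous to a product of arbitrary powers of Kuga-Satake
varieties `B_1, …, B_q` of K3 surfaces `X_1, …, X_q` (or hyperkähler varieties, or cubic fourfolds),
with totally real fields `F_1, …, F_q`, and with `r_i ≥ 6` or `r_i = 3` for all `i`. The Hodge group of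
`A` is a subgroup of the product of the Hodge groups of the `B_i` which is mapped onto each of them.
The fields, the ranks, and the relations between the Hodge structures of the `X_i` are arbitrary.
The projectors to the homologies of the factors are rational, so that the conditions are satisfied and
`Ω^{dRB}_M = Ω^{And}_M`. As the Kuga-Satake correspondence is motivated (André), the motives of the
`X_i` are in the tensor category generated by `h^1(A)` and the Tate motives and Artin motives, and so
**all de Rham-Betti classes on all products of powers of the `X_i`** are Hodge classes and motivated.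

If all `F_i` with `r_i = 3` are equal to `ℚ`, the following factors can be added. The Kuga-Satake
variety of a `T` with `F = ℚ` and `r = 4` has two blocks with three generators (the two half spin
representations, with the quaternions in the two components of the even Clifford algebra). An elliptic
curve without complex multiplication, or an abelian surface with quaternionic multiplication, has one
block with three generators, as `sl(2) = so(3)`, and an abelian variety of dimension `d` whose
endomorphism algebra is a totally real field of degree `d` (or of dimension `2 d`, with a totally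
indefinite quaternion algebra over such a field) has `d` blocks with three generators; the projectors
are defined over the field. In all cases factors of CM type with a rigid centre can be
added, for example arbitrary products of elliptic curves with complex multiplication (the eigenvalues
of the elements of the centre of `𝔤` are rational multiples of the square roots of different negative
integers without square factors, which are linearly independent over `ℚ`).

For `r = 5` the method fails: `so(5) = sp(4)` has a subalgebra isomorphic to `sl(2)` which acts
irreducibly on the spin representation. The known results in this direction treat one Kuga-Satake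
variety (`Results/MP_bf54cf_ag/KugaSatake.lean`, `Results/MP_f11a48_ag/UnitaryKugaSatake.lean`), or
abelian varieties for which the simple ideals of `𝔤 ⊗ ℂ` are of type `A_1`.

## Proof

By the theorem of Schneider and Lang the Lie algebra `𝔥` of the endomorphisms that annihilate all
de Rham-Betti classes is a subalgebra of `𝔤` which acts semisimply on `H_1(A, ℚ)` and has the same
commutant. It follows that the images of `𝔤 ⊗ ℂ` and `𝔥 ⊗ ℂ` in each block are equal. If `𝔥` were
smaller than `𝔤` (apart from the centre), then by the lemma of Goursat there would be two blocks which
are linked for `𝔥` but not for `𝔤`, that is, an isomorphism `θ` between the images of `𝔥` in the two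
blocks whose graph is the image of `𝔥` in the product. The isomorphism `θ` is arbitrary (for `so(8)`
there is triality). So one needs the following statement, which seems to be new
(`Pool.Agent.K1H15.K3.LD.no_sep`): let `so(E, c)` be the span of the products of two different
generators of the same colour, for the generators `E` with the colours `c` of a Clifford algebra (each
colour with three or at least five generators), let `so(E', c')` be another such Lie algebra, and let
`θ : so(E, c) → so(E', c')` be an isomorphism of Lie algebras. Then the spin representation of `so(E, c)`
and the spin representation of `so(E', c')`, composed with `θ`, are not separated by the enveloping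
algebra (they have an irreducible constituent in common). So two blocks which are linked for `𝔥` have
homomorphisms which commute with `𝔥` but not with `𝔤`, unless they are linked for `𝔤`.

The proof of this statement does not use the classification of semisimple Lie algebras and their
representations. For one colour, choose a Cartan subalgebra and positive roots. The pairings of the
weights of the two spin representations with the coroots are `0`, `1` or `-1`. A dominant weight with
this property is determined by its class modulo the root lattice `Q`, and it is not in `Q` if it is
not zero. So one has to find weights of the two representations which are congruent modulo `Q`. Let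
`ω_1, …, ω_n` be the positive weights of the standard representation of the first system. Then
`λ = (ω_1 + … + ω_n) / 2` is a weight of the first spin representation. The coordinates of a weight `ψ`
of the second one with respect to the `ω_i` are all integral, and then `ψ` is in `Q` or in `ω_1 + Q`, or
they are all half integral, and then `ψ` is congruent to `λ` or to `λ - ω_1`, so that there is a common
class. If there is no common class, then all weights of the second spin representation are in
`ω_1 + Q`; so the differences of these weights are in `Q`, and one of them is the weight of the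
standard representation of the second system, which is not in `Q`, a contradiction. For several colours
an element of the enveloping algebra which separates the representations gives, by its action on the
vectors of highest weight for one colour, such an element for the other colours.
-/

open Module Matrix Pool.Agent.Y102 Pool.Agent.W516.DR Pool.Agent.H204R3.GP

noncomputable section

namespace Pool.Agent.Results.MP_f11a48_ag.ProductsOfKugaSatake

variable {g : ℕ} (A : AbVar g)

/-- The rational multilinear form `φ` in `r` variables in `H_1(A, ℚ)` and the array `c` of elements
of `ℚ̄` are compatible with the point `(F, t)`, in the twist `w`: the isomorphism given by `(F, t)`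
maps the element of `H^1_dR(A / ℚ̄) ^ {⊗ r} (w)` with the coordinates `c` to `φ`. -/
def Respects {r : ℕ} (F : Fin g ⊕ Fin g → (A.H1 →ₗ[ℚ] ℂ)) (t : ℂ) (w : ℤ)
    (c : (Fin r → Fin g ⊕ Fin g) → QBar) (φ : MultilinearMap ℚ (fun _ : Fin r => A.H1) ℚ) : Prop :=
  ∀ v, t ^ w * (φ v : ℂ) = ∑ J, algebraMap QBar ℂ (c J) * ∏ l, F (J l) (v l)

/-- `(c, φ)` is a de Rham-Betti class in `H^1(A) ^ {⊗ r} (w)`: it is compatible with the comparison
isomorphism. -/
def IsDRB {r : ℕ} (w : ℤ) (c : (Fin r → Fin g ⊕ Fin g) → QBar)
    (φ : MultilinearMap ℚ (fun _ : Fin r => A.H1) ℚ) : Prop :=
  Respects A A.dR (2 * Real.pi * Complex.I) w c φ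

/-- `φ` is a Hodge class: it extends to a real multilinear form on the tangent space which is
invariant under the multiplication by the complex numbers of absolute value `1`. -/
def IsHodge {κ : Type} (φ : MultilinearMap ℚ (fun _ : κ => A.H1) ℚ) : Prop :=
  IsHodgeTensor (A.per : A.H1 →+ (Fin g → ℂ)) φ

/-- The complex points of the torsor `Ω^{dRB}` of `h^1(A)`: the isomorphisms compatible with all
de Rham-Betti classes. -/
def OmegaDRB : Set ((Fin g ⊕ Fin g → (A.H1 →ₗ[ℚ] ℂ)) × ℂ) :=
  {P | LinearIndependent ℂ P.1 ∧ P.2 ≠ 0 ∧
    ∀ (r : ℕ) (w : ℤ) (c : (Fin r → Fin g ⊕ Fin g) → QBar)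
      (φ : MultilinearMap ℚ (fun _ : Fin r => A.H1) ℚ),
      IsDRB A w c φ → Respects A P.1 P.2 w c φ}

/-- The complex points of the torsor `Ω^{And}` of `h^1(A)`: the isomorphisms compatible with all
Hodge classes. -/
def OmegaAnd : Set ((Fin g ⊕ Fin g → (A.H1 →ₗ[ℚ] ℂ)) × ℂ) :=
  {P | LinearIndependent ℂ P.1 ∧ P.2 ≠ 0 ∧
    ∀ (r : ℕ) (w : ℤ) (c : (Fin r → Fin g ⊕ Fin g) → QBar)
      (φ : MultilinearMap ℚ (fun _ : Fin r => A.H1) ℚ),
      IsDRB A w c φ → IsHodge A φ → Respects A P.1 P.2 w c φ}

/-- The endomorphism `X` annihilates the form `φ` (as a derivation). -/
def Annihilates {κ : Type} [Fintype κ] [DecidableEq κ] (X : Module.End ℚ A.H1)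
    (φ : MultilinearMap ℚ (fun _ : κ => A.H1) ℚ) : Prop :=
  ∀ v, ∑ l, φ (Function.update v l (X (v l))) = 0

/-- `X` is in the Lie algebra `𝔤`: it annihilates all classes in `H^1(A) ^ {⊗ 2m} (m)` that are Hodge
classes and de Rham-Betti classes. -/
def InLie (X : Module.End ℚ A.H1) : Prop :=
  ∀ (m : ℕ) (φ : MultilinearMap ℚ (fun _ : Fin m × Fin 2 => A.H1) ℚ), IsHodge A φ →
    IsDeRhamBettiForm QBar A.dR (2 * Real.pi * Complex.I) m φ → Annihilates A X φ

/-- The algebra of the endomorphisms of `H_1(A, ℂ)`, as matrices for the basis of the lattice. -/
abbrev EndC (_ : AbVar g) : Type := Matrix (Fin (2 * g)) (Fin (2 * g)) ℂ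

/-- The matrix of the extension of an endomorphism of `H_1(A, ℚ)` to `H_1(A, ℂ)`. -/
def toC (X : Module.End ℚ A.H1) : EndC A := Matrix.of fun i j => (X (Pi.single j 1) i : ℂ)

/-- The complex Lie algebra `𝔤 ⊗ ℂ`, acting on `H_1(A, ℂ)`. -/
def lieC : Submodule ℂ (EndC A) := Submodule.span ℂ {Y | ∃ X, InLie A X ∧ Y = toC A X}

/-- The data of a block: a projector `π` and endomorphisms `E i` with the colours `c i`. -/
structure Block where
  /-- the projector -/
  π : EndC A
  /-- the number of the generators -/
  N : ℕ
  /-- the number of the colours -/
  k : ℕ
  /-- the generators -/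
  E : Fin N → EndC A
  /-- the colours of the generators -/
  c : Fin N → Fin k

/-- The span of the products of two different generators of the same colour. -/
def soSum (B : Block A) : Submodule ℂ (EndC A) :=
  Submodule.span ℂ {Y | ∃ i j, i ≠ j ∧ B.c i = B.c j ∧ Y = B.E i * B.E j}

/-- A spin block: `π` is a projector which commutes with `𝔤`, the `E i` are endomorphisms of the image
of `π` which satisfy the relations of a Clifford algebra, and `𝔤 ⊗ ℂ` acts on the image of `π` by the
span of the products of two different generators of the same colour. -/
structure IsSpin (B : Block A) : Prop where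
  idem : B.π * B.π = B.π
  ne_zero : B.π ≠ 0
  comm : ∀ X, InLie A X → B.π * toC A X = toC A X * B.π
  sq : ∀ i, B.E i * B.E i = B.π
  anti : ∀ i j, i ≠ j → B.E i * B.E j = -(B.E j * B.E i)
  mul_left : ∀ i, B.π * B.E i = B.E i
  image : (lieC A).map (LinearMap.mulLeft ℂ B.π) = soSum A B

/-- The number of the generators of the colour `s`. -/
def size (B : Block A) (s : Fin B.k) : ℕ := (Finset.univ.filter fun j => B.c j = s).card

/-- All colours have exactly three generators. -/
def Three (B : Block A) : Prop := ∀ s, size A B s = 3

/-- All colours (which occur) have at least six generators. -/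
def SixOrMore (B : Block A) : Prop := ∀ i, 6 ≤ size A B (B.c i)

/-- Both blocks have three generators for each colour, or both have at least six. -/
def SameKind (B B' : Block A) : Prop :=
  (Three A B ∧ Three A B') ∨ (SixOrMore A B ∧ SixOrMore A B')

/-- All generators have the same colour. -/
def OneColour (B : Block A) : Prop := ∀ i j, B.c i = B.c j

/-- The projector is defined over the rational numbers. -/
def IsRational (B : Block A) : Prop := ∃ P : Module.End ℚ A.H1, B.π = toC A P

/-- `J` is an ideal of `𝔤`. -/
def IsIdeal (J : Submodule ℚ (Module.End ℚ A.H1)) : Prop :=
  (∀ X ∈ J, InLie A X) ∧ ∀ Z, InLie A Z → ∀ X ∈ J, Z * X - X * Z ∈ J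

/-- The image of `J` under `X ↦ P * X` is zero. -/
def ZeroImage (P : Module.End ℚ A.H1) (J : Submodule ℚ (Module.End ℚ A.H1)) : Prop :=
  ∀ X ∈ J, P * X = 0

/-- The image of `J` under `X ↦ P * X` contains the image of `𝔤`. -/
def FullImage (P : Module.End ℚ A.H1) (J : Submodule ℚ (Module.End ℚ A.H1)) : Prop :=
  ∀ Z, InLie A Z → ∃ X ∈ J, P * X = P * Z

/-- The projector is defined over the rational numbers, and the image of `𝔤` in the block is simple
over `ℚ`: the image of an ideal `J` of `𝔤` is zero or equal to the image of `𝔤`. -/
def IsSimple (B : Block A) : Prop :=
  ∃ P : Module.End ℚ A.H1, B.π = toC A P ∧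
    ∀ J : Submodule ℚ (Module.End ℚ A.H1), IsIdeal A J → ZeroImage A P J ∨ FullImage A P J

/-- `X` is an element of the centre of `𝔤`. -/
def InCentre (X : Module.End ℚ A.H1) : Prop := InLie A X ∧ ∀ Y, InLie A Y → Y * X = X * Y

/-- The endomorphisms which commute with `X` and with the derived algebra of `𝔤` commute with the
centre of `𝔤`. -/
def Generates (X : Module.End ℚ A.H1) : Prop :=
  ∀ T : Module.End ℚ A.H1,
    (∀ Y, InLie A Y → ∀ Z, InLie A Z → T * (Y * Z - Z * Y) = (Y * Z - Z * Y) * T) →
    T * X = X * T → ∀ Z, InCentre A Z → T * Z = Z * T

/-- All relations `∑ i, x i = 0` between eigenvalues of `X` imply the relation `∑ i, y i = 0` between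
the eigenvalues of `Y` for the same eigenvectors. -/
def RelationsOf (X Y : Module.End ℚ A.H1) : Prop :=
  ∀ (r : ℕ) (v : Fin r → Fin (2 * g) → ℂ) (x y : Fin r → ℂ),
    (∀ i, v i ≠ 0 ∧ Matrix.mulVec (toC A X) (v i) = x i • v i ∧
      Matrix.mulVec (toC A Y) (v i) = y i • v i) → ∑ i, x i = 0 → ∑ i, y i = 0

/-- The centre of `𝔤` is rigid: the relations between the eigenvalues of a generating element of the
centre hold for all elements of the centre. -/
def RigidCentre : Prop :=
  ∀ X, InCentre A X → Generates A X → ∀ Y, InCentre A Y → RelationsOf A X Y

/-- `𝔤` is commutative outside of the blocks: the sum of the projectors acts as the identity on the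
brackets. -/
def CommutativeOutside {m : ℕ} (B : Fin m → Block A) : Prop :=
  ∀ X, InLie A X → ∀ Y, InLie A Y → (∑ b, (B b).π) * (toC A X * toC A Y - toC A Y * toC A X) =
    toC A X * toC A Y - toC A Y * toC A X

/-- The conditions on the family of blocks. -/
structure IsSpinFamily {m : ℕ} (B : Fin m → Block A) : Prop where
  spin : ∀ b, IsSpin A (B b)
  size : ∀ b, Three A (B b) ∨ SixOrMore A (B b)
  colours : ∀ b, OneColour A (B b) ∨
    (IsSimple A (B b) ∧ ∀ b', SameKind A (B b') (B b) → IsRational A (B b'))
  rest : ∑ b, (B b).π = 1 ∨ (CommutativeOutside A B ∧ RigidCentre A)

/-- **De Rham-Betti classes are Hodge classes, and `Ω^{dRB} = Ω^{And}`, for `h^1` of the abelian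
varieties with spin blocks.** -/
theorem result (g : ℕ) (A : AbVar g) (m : ℕ) (B : Fin m → Block A) (hB : IsSpinFamily A B) :
    (∀ (r : ℕ) (w : ℤ) (c : (Fin r → Fin g ⊕ Fin g) → QBar)
      (φ : MultilinearMap ℚ (fun _ : Fin r => A.H1) ℚ), IsDRB A w c φ → IsHodge A φ) ∧
    OmegaDRB A = OmegaAnd A := by
  have key := K1H15.K3.full_mat A.full_LA (π := fun b => (B b).π) (E := fun b => (B b).E)
    (c := fun b => (B b).c)
    (fun b => (hB.spin b).idem) (fun b => (hB.spin b).ne_zero)
    (fun b X hX => (hB.spin b).comm X hX) (fun b => (hB.spin b).sq) (fun b => (hB.spin b).anti)
    (fun b => (hB.spin b).mul_left) (fun b => (hB.spin b).image) hB.size (fun t => by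
      rcases hB.colours t with h1 | ⟨⟨P, hP, hs⟩, h2⟩
      · exact Or.inl h1
      · exact Or.inr ⟨⟨P, hP, fun J h3 h4 => hs J ⟨h3, h4⟩⟩, fun s hl => h2 s hl⟩)
  have hNA : A.NA ≤ A.LA := by
    rcases hB.rest with hk | ⟨hc, hz⟩
    · exact key.2 hk
    · have h1 := key.1 fun X hX Y hY => hc X hX Y hY
      have hc : A.CN ≤ A.LA := A.centre_le fun X hX hg Y hY => by
        refine dom_of_matrix (hz X ⟨hX.1, hX.2⟩ (fun T hT hTX Z hZ => ?_) Y ⟨hY.1, hY.2⟩)
        exact hg T hT hTX Z ⟨hZ.1, hZ.2⟩
      exact (AbVar.NA_le_of_rigid h1).trans (sup_le le_rfl hc)
  have hA : ∀ (m : ℕ) (φ : MultilinearMap ℚ (fun _ : Fin m × Fin 2 => A.H1) ℚ),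
      IsDeRhamBettiForm QBar A.dR tau m φ → IsHodgeTensor (A.per : A.H1 →+ (Fin g → ℂ)) φ :=
    fun m φ hφ => hodge_of_kills _ A.isRationalStructure φ fun Z hZ => hNA (A.MA_le_NA hZ) m φ hφ
  have hall : ∀ (r : ℕ) (w : ℤ) (c : (Fin r → Fin g ⊕ Fin g) → QBar)
      (φ : MultilinearMap ℚ (fun _ : Fin r => A.H1) ℚ), IsDRB A w c φ → IsHodge A φ :=
    fun r w c φ hφ => R918.hodge_all_of hA hφ
  refine ⟨hall, ?_⟩
  ext P
  constructor
  · rintro ⟨p1, p2, p3⟩
    exact ⟨p1, p2, fun r w c φ hφ _ => p3 r w c φ hφ⟩
  · rintro ⟨p1, p2, p3⟩
    exact ⟨p1, p2, fun r w c φ hφ => p3 r w c φ hφ (hall r w c φ hφ)⟩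

end Pool.Agent.Results.MP_f11a48_ag.ProductsOfKugaSatake
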