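import Pool.Agent.K1H12.SE.Two2

/-!
# The smallest subtorsor for sums of motives of rank two with real multiplication

Let `a_0 < a_1` be the roots of a quadratic polynomial over `ℚ`, different from `0`, and let `μ` be a rational number in
`(0, 1)`. For `t` in the same gap as `0` let `P_μ(t)` be the `2 × 2` matrix of the integrals
`∫ x^j |x - a_0|^(-μ) |x - a_1|^(-μ) |x - t|^(μ - 1) dx` over the two segments between consecutive points of `{a_0, a_1, t}`.
If `μ = A / N` then up to roots of unity this is the matrix of the periods of the eigenspace `M_μ(t)` of `h^1` of the curve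
`C_t : y^N = (x - a_0) (x - a_1) (x - t)^(N - 1)` with respect to the action of `μ_N`. For `μ = 1 / 2` this is `h^1` of an elliptic
curve in a family of Legendre type. For odd `N` the Jacobian of `C_t`, of dimension `N - 1`, is isogenous to the square of an
abelian variety `B_t` of dimension `(N - 1) / 2` (because of the involution of `C_t` which exchanges the branch points
`a_0, a_1` with `t, ∞`), with real multiplication by the fields `ℚ (cos (2 π / d))`, `d ∣ N`, `d > 1`, and over number fields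
which contain the `N`-th roots of unity and `(a_1 - a_0)^(2 / N)` the motive `h^1 (B_t)` is the sum of the motives `M_μ(t)` of rank
two, `μ = A / N < 1 / 2`.

**Theorem.** Let `μ_1, …, μ_s` be distinct rational numbers in `(0, 1)` with `μ_σ + μ_τ ≠ 1` for `σ ≠ τ`, and
`c_σ = (a_1 - a_0)^(1 - 2 μ_σ) / ((1 - μ_σ) sin (π μ_σ))`, an algebraic number. Let `K ⊂ ℂ` be a number field of bounded degree
which contains the `c_σ` and `M_0` a de Rham-Betti object over `K` of bounded rank, with period matrix `C₀` (any invertible complex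
matrix). Then for almost all `k`-tuples `m` of natural numbers (all but `C T^(k - c)` of the tuples in `[2, T]^k`, and all
tuples of separated integers in the windows `[N, N + N^c]` without at most `M` integers; the exceptional sets depend on `K` and
`M_0`, but the constants do not) and `t_l = 1 / m_l`:

* `det P_σ(t_l) = π c_σ` (a generalised Legendre relation).
* Let `M = M_0 ⊕ ⊕_(l, σ) M_(l, σ)`, with the period matrix `c_M = C₀ ⊕ ⊕ P_σ(t_l)`, and let `Ω_0` be the smallest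
`K`-subtorsor of `GL_(r + 1)` which contains `C₀ ⊕ π`. Then the smallest `K`-subtorsor `Ω_M` containing `c_M` consists of the
matrices `x ⊕ ⊕ X_(l, σ)` such that there is a `λ` with `x ⊕ λ ∈ Ω_0` and `det X_(l, σ) = λ c_σ` for all `l, σ`.
* For `M_0 = 0` we have `Ω_0 = GL_1`, so `Ω_M` is the set of all `⊕ X_(l, σ)` such that the numbers `det X_(l, σ) / c_σ` are
equal and not zero.

The relations `det X_(l, σ) = λ c_σ` come from isomorphisms `det M_(l, σ) ≅ ℚ (-1)` (over a finite extension), that is, from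
the polarisations (algebraic classes), and if `K` contains `i`, then up to the factor `2 i ∈ K` the torsor `Ω_0` is that of
`M_0 ⊕ ℚ (-1)`. So `Ω_M` is as large as the algebraic classes allow as soon as this is true for `M_0 ⊕ ℚ (-1)`, in particular
for `M_0 = 0`; then the torsors `Ω_M`, `Ω^dRB_M`, `Ω^And_M` and `Ω^mot_M` are equal. There is no restriction on the degrees of the
relations.

Proof (`Pool/Agent/K1H12/SE`). See `SuperellipticSubtorsors` for the determination of `Ω_M` in terms of `C₀` and the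
determinants; here we also determine the determinants: they do not depend on `t` (also not on the gap of `t`), because the
determinant of the integrals from `a_i` to `t` is holomorphic on the upper half plane and locally constant at its boundary, and the
limit for `t → a_0` is computed by the beta integral. Finally `π` is transcendental.
-/

set_option autoImplicit false

open Polynomial Matrix

namespace Pool.Agent.Results.MP_f11a48_ag.RealMultiplicationTorsors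

/-- `T` is (the set of complex points of) a `K`-subtorsor of `GL_B = Iso (M_dR, M_B)`: it is closed under `x y⁻¹ z`, and
it is defined in `GL_B` by polynomials with coefficients in `K`. -/
def IsSubtorsor (K : Subfield ℂ) {B : Type} [Fintype B] [DecidableEq B] (T : Set (Matrix B B ℂ)) : Prop :=
  (∀ x ∈ T, ∀ y ∈ T, ∀ z ∈ T, x * y⁻¹ * z ∈ T) ∧ ∃ I : Set (MvPolynomial (B × B) K), ∀ x : Matrix B B ℂ, x ∈ T ↔
    IsUnit x ∧ ∀ p ∈ I, MvPolynomial.eval (fun b => x b.1 b.2) (MvPolynomial.map (algebraMap K ℂ) p) = 0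

/-- `Ω` is the smallest `K`-subtorsor which contains the period matrix `c` -/
def IsOmega (K : Subfield ℂ) {B : Type} [Fintype B] [DecidableEq B] (c : Matrix B B ℂ) (Ω : Set (Matrix B B ℂ)) : Prop :=
  IsSubtorsor K Ω ∧ c ∈ Ω ∧ ∀ T : Set (Matrix B B ℂ), IsSubtorsor K T → c ∈ T → Ω ⊆ T

/-- the branch points: `t` inserted at place `p` in the sequence `a 0, a 1` -/
noncomputable def branch (a : Fin 2 → ℝ) (p : Fin 3) (t : ℝ) : Fin 3 → ℝ :=
  Fin.insertNth (α := fun _ => ℝ) p t a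

/-- the periods `∫ x^j |x - a 0|^(-μ) |x - a 1|^(-μ) |x - t|^(μ - 1) dx` over the segments `[e l, e (l + 1)]`,
`e = branch a p t` -/
noncomputable def periods (a : Fin 2 → ℝ) (p : Fin 3) (μ : ℚ) (t : ℝ) : Matrix (Fin 2) (Fin 2) ℂ :=
  Matrix.of fun l j => ((∫ x in (branch a p t l.castSucc)..(branch a p t l.succ),
    x ^ (j : ℕ) * ((∏ i, |x - a i| ^ (-(μ : ℝ))) * |x - t| ^ ((μ : ℝ) - 1)) : ℝ) : ℂ)

/-- the algebraic number `c_μ = (a_1 - a_0)^(1 - 2 μ) / ((1 - μ) sin (π μ))` -/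
noncomputable def factor (a : Fin 2 → ℝ) (μ : ℚ) : ℝ :=
  (a 1 - a 0) ^ (1 - 2 * (μ : ℝ)) / ((1 - (μ : ℝ)) * Real.sin (Real.pi * (μ : ℝ)))

/-- the block matrix `x ⊕ ⊕ X l σ` -/
noncomputable def total {r s k : ℕ} (x : Matrix (Fin r) (Fin r) ℂ) (X : Fin k → Fin s → Matrix (Fin 2) (Fin 2) ℂ) :
    Matrix (Fin r ⊕ (Fin 2 × (Fin k × Fin s))) (Fin r ⊕ (Fin 2 × (Fin k × Fin s))) ℂ :=
  Matrix.fromBlocks x 0 0 (Matrix.blockDiagonal fun p : Fin k × Fin s => X p.1 p.2)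

/-- the block matrix `x ⊕ w` -/
noncomputable def addOne {r : ℕ} (x : Matrix (Fin r) (Fin r) ℂ) (w : ℂ) : Matrix (Fin r ⊕ Fin 1) (Fin r ⊕ Fin 1) ℂ :=
  Matrix.fromBlocks x 0 0 (Matrix.diagonal fun _ => w)

/-- the conclusion for the fibres at `t = 1 / m_1, …, 1 / m_k` -/
def Determined {r s k : ℕ} (K : Subfield ℂ) (C₀ : Matrix (Fin r) (Fin r) ℂ) (a : Fin 2 → ℝ) (p : Fin 3) (μ : Fin s → ℚ)
    (m : Fin k → ℕ) : Prop :=
  (∀ l, StrictMono (branch a p (1 / (m l : ℝ)))) ∧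
  (∀ l σ, (periods a p (μ σ) (1 / (m l : ℝ))).det = (Real.pi : ℂ) * (factor a (μ σ) : ℂ)) ∧
  ∃ Ω₀ : Set (Matrix (Fin r ⊕ Fin 1) (Fin r ⊕ Fin 1) ℂ), IsOmega K (addOne C₀ (Real.pi : ℂ)) Ω₀ ∧
    (r = 0 → ∀ z : Matrix (Fin r ⊕ Fin 1) (Fin r ⊕ Fin 1) ℂ, IsUnit z → z ∈ Ω₀) ∧
    IsOmega K (total C₀ fun l σ => periods a p (μ σ) (1 / (m l : ℝ)))
      {z | ∃ (x : Matrix (Fin r) (Fin r) ℂ) (X : Fin k → Fin s → Matrix (Fin 2) (Fin 2) ℂ) (w : ℂ),
        z = total x X ∧ addOne x w ∈ Ω₀ ∧ ∀ l σ, (X l σ).det = w * (factor a (μ σ) : ℂ)}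

open Classical in
/-- The theorem. -/
theorem result (s : ℕ) (hs : 0 < s) (a : Fin 2 → ℝ) (f : ℚ[X]) (p : Fin 3) (μ : Fin s → ℚ)
    (hf : f.map (algebraMap ℚ ℝ) = ∏ i, (X - C (a i))) (ha : StrictMono (branch a p 0))
    (hμ : ∀ σ, 0 < μ σ ∧ μ σ < 1) (hinj : Function.Injective μ) (hdual : ∀ σ τ, σ ≠ τ → μ σ + μ τ ≠ 1) :
    ∃ G : ℕ, ∀ k D r : ℕ, 0 < k →
      (∃ M : ℕ, ∃ c : ℝ, 0 < c ∧ ∀ K : Subfield ℂ, FiniteDimensional ℚ K → Module.finrank ℚ K ≤ D →
        (∀ σ, ((factor a (μ σ) : ℝ) : ℂ) ∈ K) →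
        ∀ C₀ : Matrix (Fin r) (Fin r) ℂ, IsUnit C₀ → ∀ N : ℕ, 1 ≤ N →
        ∃ S : Finset ℕ, S.card ≤ M ∧ ∀ m : Fin k → ℕ, (∀ i j, i ≠ j → (G : ℤ) ≤ |(m i : ℤ) - m j|) →
          (∀ i, N ≤ m i ∧ (m i : ℝ) ≤ N + (N : ℝ) ^ c ∧ m i ∉ S) → Determined K C₀ a p μ m) ∧
      ∃ c : ℝ, 0 < c ∧ ∃ C : ℝ, ∀ K : Subfield ℂ, FiniteDimensional ℚ K → Module.finrank ℚ K ≤ D →
        (∀ σ, ((factor a (μ σ) : ℝ) : ℂ) ∈ K) →
        ∀ C₀ : Matrix (Fin r) (Fin r) ℂ, IsUnit C₀ → ∀ T : ℕ, 1 ≤ T →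
        (((Fintype.piFinset fun _ : Fin k => Finset.Icc 2 T).filter fun m => ¬ Determined K C₀ a p μ m).card : ℝ) ≤
          C * (T : ℝ) ^ ((k : ℝ) - c) := by
  obtain ⟨δ, -, G, hmain⟩ := K1H12.SE.main_se (n := 2) le_rfl hf ha (fun σ => (hμ σ).1) (fun σ => (hμ σ).2) hinj hdual
    (fun h σ => absurd h (by norm_num)) (fun h σ j => absurd h (by norm_num))
  have hconv : ∀ {k r : ℕ} (hk : 0 < k) (K : Subfield ℂ) (hK : FiniteDimensional ℚ K)
      (hKf : ∀ σ, ((factor a (μ σ) : ℝ) : ℂ) ∈ K) (C₀ : Matrix (Fin r) (Fin r) ℂ) (hC₀ : IsUnit C₀) (m : Fin k → ℕ),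
      K1H12.SE.Cn K C₀ a p (fun σ => (μ σ : ℝ)) δ 0 m → Determined K C₀ a p μ m := by
    intro k r hk K hK hKf C₀ hC₀ m hC
    have h1 := hC.1
    have h01 : a 0 < a 1 := K1H12.SE.mono_of_brp ha (by simp)
    have hpi : (Real.pi : ℂ) ≠ 0 := by exact_mod_cast Real.pi_ne_zero
    have hu1 : IsUnit (addOne C₀ (Real.pi : ℂ)) := K1H12.SE.bt_unit.2 ⟨hC₀, fun _ => hpi⟩
    have h2 : ∀ l σ, (periods a p (μ σ) (1 / (m l : ℝ))).det = (Real.pi : ℂ) * (factor a (μ σ) : ℂ) := by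
      intro l σ
      have h3 := K1H12.SE.det_prd hf ha (hμ σ).1 (hμ σ).2 (h1 l)
      rw [Complex.ofReal_mul] at h3
      exact h3
    have hu2 : IsUnit (K1H12.SE.tot C₀ fun l σ => K1H12.SE.prd a p (μ σ) (1 / (m l : ℝ))) := by
      refine K1H12.SE.tot_unit.2 ⟨hC₀, fun l σ => (Matrix.isUnit_iff_isUnit_det _).2 (isUnit_iff_ne_zero.2 ?_)⟩
      have h3 := h2 l σ
      change (K1H12.SE.prd a p (μ σ) (1 / (m l : ℝ))).det = _ at h3
      rw [h3]
      refine mul_ne_zero hpi ?_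
      have h4 := (K1H12.SE.cq_pos h01 (μ := μ σ) (by exact_mod_cast (hμ σ).1) (by exact_mod_cast (hμ σ).2)).ne'
      exact Complex.ofReal_ne_zero.2 h4
    refine ⟨h1, h2, K1H12.SE.sm K (addOne C₀ (Real.pi : ℂ)), ⟨K1H12.SE.sm_sub hu1, K1H12.SE.mem_sm_self _,
      fun T hT hcT x hx => hx T hT hcT⟩, ?_, ?_⟩
    · rintro rfl z hz
      exact K1H12.SE.sm_pi K C₀ hz
    · have h5 : IsOmega K (total C₀ fun l σ => periods a p (μ σ) (1 / (m l : ℝ)))
          (K1H12.SE.sm K (total C₀ fun l σ => periods a p (μ σ) (1 / (m l : ℝ)))) :=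
        ⟨K1H12.SE.sm_sub hu2, K1H12.SE.mem_sm_self _, fun T hT hcT x hx => hx T hT hcT⟩
      have h6 : K1H12.SE.sm K (total C₀ fun l σ => periods a p (μ σ) (1 / (m l : ℝ))) =
          {z | ∃ (x : Matrix (Fin r) (Fin r) ℂ) (X : Fin k → Fin s → Matrix (Fin 2) (Fin 2) ℂ) (w : ℂ),
            z = total x X ∧ addOne x w ∈ K1H12.SE.sm K (addOne C₀ (Real.pi : ℂ)) ∧
            ∀ l σ, (X l σ).det = w * (factor a (μ σ) : ℂ)} :=
        K1H12.SE.two_sm hC₀ hk hs hf ha (fun σ => (hμ σ).1) (fun σ => (hμ σ).2) hKf hC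
      rw [h6] at h5
      exact h5
  refine ⟨G, fun k D r hk => ?_⟩
  obtain ⟨⟨M, c₁, hc₁, hwin⟩, c, hc, C, hcount⟩ := hmain k D r 0
  refine ⟨⟨M, c₁, hc₁, ?_⟩, c, hc, C, ?_⟩
  · intro K hK hKD hKf C₀ hC₀ N hN
    obtain ⟨S, hS, hS'⟩ := hwin K hK hKD C₀ N hN
    exact ⟨S, hS, fun m hm hmS => hconv hk K hK hKf C₀ hC₀ m (hS' m hm hmS)⟩
  · intro K hK hKD hKf C₀ hC₀ T hT
    refine le_trans ?_ (hcount K hK hKD C₀ T hT)
    have h2 : ((Fintype.piFinset fun _ : Fin k => Finset.Icc 2 T).filter fun m => ¬ Determined K C₀ a p μ m) ⊆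
        ((Fintype.piFinset fun _ : Fin k => Finset.Icc 2 T).filter fun m =>
          ¬ K1H12.SE.Cn K C₀ a p (fun σ => (μ σ : ℝ)) δ 0 m) := by
      intro m hm
      rw [Finset.mem_filter] at hm ⊢
      exact ⟨hm.1, fun h3 => hm.2 (hconv hk K hK hKf C₀ hC₀ m h3)⟩
    exact_mod_cast Finset.card_le_card h2

end Pool.Agent.Results.MP_f11a48_ag.RealMultiplicationTorsors
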