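import Pool.Agent.K1H12.SE.Main
import Pool.Agent.K1H12.SE.Rel

/-!
# Relations of bounded degree between the periods of almost all fibres of superelliptic families

Let `f ∈ ℚ[X]` be monic with `n ≥ 2` distinct real roots `a_i`, `0` in one of the gaps between the roots (or outside), and let
`μ` be a rational number in `(0, 1)`. For `t` in this gap let `P_μ(t)` be the `n × n` matrix of the integrals
`∫ x^j ∏ |x - a_i|^(-μ) |x - t|^(μ - 1) dx` over the `n` segments between consecutive points of `{a_0, …, a_(n-1), t}`. If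
`μ = A / N` then up to roots of unity this is the matrix of the periods of the eigenspace of `h^1` of the superelliptic curve
`y^N = f(x)^A (x - t)^(N - A)` with respect to the action of `μ_N` (over fields which contain the roots of unity); it has rank
`n` if `(n - 1) μ` is not an integer.

**Theorem.** Let `μ_1, …, μ_s` be distinct rational numbers in `(0, 1)` with `μ_σ + μ_τ ≠ 1` for `σ ≠ τ` (the eigenspaces
for `μ` and `1 - μ` are dual to each other up to a Tate twist), and if `n > 2` assume that `2 μ_σ` and `(n - 1) μ_σ` are not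
integers. Let `e, k, D, r` be given. Then for almost all `k`-tuples `m` of natural numbers (all but `C T^(k - c)` of the
tuples in `[2, T]^k`, and all tuples of separated integers in the windows `[N, N + N^c]` without at most `M` integers) the
following holds for `t_l = 1 / m_l`, for all number fields `K ⊂ ℂ` of degree at most `D` and all de Rham-Betti objects `M_0`
over `K` of rank `r`, with period matrix `C₀` (any complex matrix); the exceptional sets depend on `K` and `C₀`, the numbers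
`M`, `c`, `C` do not. Let `M = M_0 ⊕ ⊕_(l, σ) M_(l, σ)` with the period
matrix `c_M = C₀ ⊕ ⊕ P_σ(t_l)`, let `δ_σ` be the determinant of `P_σ(t_l)`, which does not depend on `l`, and let `Z_1` be the
Zariski closure over `K` of the matrix `C₀ ⊕ δ_1 ⊕ … ⊕ δ_s`, and `Z'` the set of all matrices
`x ⊕ ⊕ X_(l, σ)` such that there are `d_σ` with `x ⊕ d_1 ⊕ … ⊕ d_s ∈ Z_1` and `det X_(l, σ) = d_σ` for all `l, σ`. Then

* the Zariski closure `Z_M` of `c_M` over `K` is contained in `Z'`, and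
* all polynomials of degree at most `e` over `K` which vanish in `c_M` vanish on `Z'`.

So all polynomial relations of degree at most `e` over `K` between the periods of `M` are consequences of the relations between
the periods of `M_0` and of the objects `det M_(l, σ)` of rank one, and `Z_M = Z'` up to degree `e`.

Proof (`Pool/Agent/K1H12/SE`). The matrix `Z` with `P_σ(t) = P_σ(0) Z(t)` is the regular solution of an explicit system over
`ℚ(t)`, it consists of G-functions, and `det Z = 1`. The integrals from `a_i` to `t` are holomorphic on the upper half plane, their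
boundary values on the gaps are expressed by the real integrals, with phases. The comparison of the boundary values in two
adjacent gaps gives for each root a unipotent element which preserves all algebraic relations over `ℂ(t)` between the periods
for all `σ` simultaneously. The double commutators of two such elements separate the exponents, and for each exponent the
elements generate `SL_n`. So all relations over `ℂ(t)` are stable under the product of the groups `SL_n`. By a theorem of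
helper113 (`Pool/Agent/Y113/GG`) relations of bounded degree between the values are specialisations of such relations outside of
a sparse set. Finally the rational points of `SL_n` are dense.
-/

set_option autoImplicit false

open Polynomial Matrix

namespace Pool.Agent.Results.MP_f11a48_ag.SuperellipticRelations

/-- The Zariski closure over `K` of the period matrix `c` in `GL_B = Iso (M_dR, M_B)` (its complex points): the invertible
matrices at which all polynomials over `K` vanish that vanish at `c`. -/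
def closure (K : Subfield ℂ) {B : Type} [Fintype B] [DecidableEq B] (c : Matrix B B ℂ) : Set (Matrix B B ℂ) :=
  {z | IsUnit z ∧ ∀ R : MvPolynomial (B × B) K,
    MvPolynomial.eval (fun b => c b.1 b.2) (MvPolynomial.map (algebraMap K ℂ) R) = 0 →
    MvPolynomial.eval (fun b => z b.1 b.2) (MvPolynomial.map (algebraMap K ℂ) R) = 0}

/-- the branch points: `t` inserted at place `p` in the sequence of the `a i` -/
noncomputable def branch {n : ℕ} (a : Fin n → ℝ) (p : Fin (n + 1)) (t : ℝ) : Fin (n + 1) → ℝ :=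
  Fin.insertNth (α := fun _ => ℝ) p t a

/-- the periods `∫ x^j ∏ |x - a i|^(-μ) |x - t|^(μ - 1) dx` over the segments `[e l, e (l + 1)]`, `e = branch a p t` -/
noncomputable def periods {n : ℕ} (a : Fin n → ℝ) (p : Fin (n + 1)) (μ : ℚ) (t : ℝ) : Matrix (Fin n) (Fin n) ℂ :=
  Matrix.of fun l j => ((∫ x in (branch a p t l.castSucc)..(branch a p t l.succ),
    x ^ (j : ℕ) * ((∏ i, |x - a i| ^ (-(μ : ℝ))) * |x - t| ^ ((μ : ℝ) - 1)) : ℝ) : ℂ)

/-- the block matrix `x ⊕ ⊕ X l σ` -/
noncomputable def total {n r s k : ℕ} (x : Matrix (Fin r) (Fin r) ℂ) (X : Fin k → Fin s → Matrix (Fin n) (Fin n) ℂ) :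
    Matrix (Fin r ⊕ (Fin n × (Fin k × Fin s))) (Fin r ⊕ (Fin n × (Fin k × Fin s))) ℂ :=
  Matrix.fromBlocks x 0 0 (Matrix.blockDiagonal fun p : Fin k × Fin s => X p.1 p.2)

/-- the block matrix `x ⊕ d_1 ⊕ … ⊕ d_s` -/
noncomputable def addDiag {r s : ℕ} (x : Matrix (Fin r) (Fin r) ℂ) (d : Fin s → ℂ) :
    Matrix (Fin r ⊕ Fin s) (Fin r ⊕ Fin s) ℂ := Matrix.fromBlocks x 0 0 (Matrix.diagonal d)

/-- the matrices `x ⊕ ⊕ X l σ` with `x ⊕ d_1 ⊕ … ⊕ d_s ∈ Z₁` and `det (X l σ) = d σ` -/
def pullback (n k : ℕ) {r s : ℕ} (Z₁ : Set (Matrix (Fin r ⊕ Fin s) (Fin r ⊕ Fin s) ℂ)) :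
    Set (Matrix (Fin r ⊕ (Fin n × (Fin k × Fin s))) (Fin r ⊕ (Fin n × (Fin k × Fin s))) ℂ) :=
  {z | ∃ (x : Matrix (Fin r) (Fin r) ℂ) (X : Fin k → Fin s → Matrix (Fin n) (Fin n) ℂ) (d : Fin s → ℂ),
    z = total x X ∧ addDiag x d ∈ Z₁ ∧ ∀ l σ, (X l σ).det = d σ}

/-- the conclusion for relations of degree at most `e` and the fibres at `t = 1 / m_1, …, 1 / m_k` -/
def Generic {n r s k : ℕ} (K : Subfield ℂ) (C₀ : Matrix (Fin r) (Fin r) ℂ) (a : Fin n → ℝ) (p : Fin (n + 1)) (μ : Fin s → ℚ)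
    (δ : Fin s → ℂ) (e : ℕ) (m : Fin k → ℕ) : Prop :=
  (∀ l, StrictMono (branch a p (1 / (m l : ℝ)))) ∧ (∀ l σ, (periods a p (μ σ) (1 / (m l : ℝ))).det = δ σ) ∧
  closure K (total C₀ fun l σ => periods a p (μ σ) (1 / (m l : ℝ))) ⊆ pullback n k (closure K (addDiag C₀ δ)) ∧
  ∀ R : MvPolynomial ((Fin r ⊕ (Fin n × (Fin k × Fin s))) × (Fin r ⊕ (Fin n × (Fin k × Fin s)))) K, R.totalDegree ≤ e →
    MvPolynomial.eval (fun b => total C₀ (fun l σ => periods a p (μ σ) (1 / (m l : ℝ))) b.1 b.2)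
      (MvPolynomial.map (algebraMap K ℂ) R) = 0 →
    ∀ z ∈ pullback n k (closure K (addDiag C₀ δ)),
      MvPolynomial.eval (fun b => z b.1 b.2) (MvPolynomial.map (algebraMap K ℂ) R) = 0

open Classical in
/-- The theorem. The numbers `δ σ` and `G` depend only on the family and the exponents. -/
theorem result (n s : ℕ) (hn : 2 ≤ n) (a : Fin n → ℝ) (f : ℚ[X]) (p : Fin (n + 1)) (μ : Fin s → ℚ)
    (hf : f.map (algebraMap ℚ ℝ) = ∏ i, (X - C (a i))) (ha : StrictMono (branch a p 0))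
    (hμ : ∀ σ, 0 < μ σ ∧ μ σ < 1) (hinj : Function.Injective μ) (hdual : ∀ σ τ, σ ≠ τ → μ σ + μ τ ≠ 1)
    (hirr : 2 < n → ∀ σ, 2 * μ σ ≠ 1 ∧ ∀ j : ℤ, ((n : ℚ) - 1) * μ σ ≠ j) :
    ∃ δ : Fin s → ℂ, (∀ σ, δ σ ≠ 0) ∧ ∃ G : ℕ, ∀ k D r e : ℕ, 0 < k →
      (∃ M : ℕ, ∃ c : ℝ, 0 < c ∧ ∀ K : Subfield ℂ, FiniteDimensional ℚ K → Module.finrank ℚ K ≤ D →
        ∀ C₀ : Matrix (Fin r) (Fin r) ℂ, ∀ N : ℕ, 1 ≤ N →
        ∃ S : Finset ℕ, S.card ≤ M ∧ ∀ m : Fin k → ℕ, (∀ i j, i ≠ j → (G : ℤ) ≤ |(m i : ℤ) - m j|) →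
          (∀ i, N ≤ m i ∧ (m i : ℝ) ≤ N + (N : ℝ) ^ c ∧ m i ∉ S) → Generic K C₀ a p μ δ e m) ∧
      ∃ c : ℝ, 0 < c ∧ ∃ C : ℝ, ∀ K : Subfield ℂ, FiniteDimensional ℚ K → Module.finrank ℚ K ≤ D →
        ∀ C₀ : Matrix (Fin r) (Fin r) ℂ, ∀ T : ℕ, 1 ≤ T →
        (((Fintype.piFinset fun _ : Fin k => Finset.Icc 2 T).filter fun m => ¬ Generic K C₀ a p μ δ e m).card : ℝ) ≤
          C * (T : ℝ) ^ ((k : ℝ) - c) := by
  obtain ⟨δ, hδ, G, hmain⟩ := K1H12.SE.main_se hn hf ha (fun σ => (hμ σ).1) (fun σ => (hμ σ).2) hinj hdual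
    (fun h σ => (hirr h σ).1) (fun h σ j => by
      rw [Nat.cast_sub (by omega)]
      exact (hirr h σ).2 j)
  have hconv : ∀ {k r e : ℕ} (hk : 0 < k) (K : Subfield ℂ) (C₀ : Matrix (Fin r) (Fin r) ℂ) (m : Fin k → ℕ),
      K1H12.SE.Cn K C₀ a p (fun σ => (μ σ : ℝ)) δ e m → Generic K C₀ a p μ δ e m := by
    rintro k r e hk K C₀ m ⟨h1, h2, -, h3⟩
    refine ⟨h1, h2, fun z hz => K1H12.SE.zar_pull hk h2 hz, ?_⟩
    rintro R hR hR0 _ ⟨x, X, d, rfl, ⟨hu, hz⟩, hX⟩
    refine K1H12.SE.pull_rel hn R (fun X' hX' => ?_) (K1H12.SE.bt_unit.1 hu).2 hz hX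
    have hPu : ∀ l σ, IsUnit (K1H12.SE.prd a p (μ σ) (1 / (m l : ℝ))).det := fun l σ => by
      rw [h2]
      exact isUnit_iff_ne_zero.2 (hδ σ)
    have h4 := h3 R hR hR0 (fun l σ => X' l σ * (K1H12.SE.prd a p (μ σ) (1 / (m l : ℝ)))⁻¹) (fun l σ => by
      rw [Matrix.det_mul, Matrix.det_nonsing_inv, Ring.inverse_eq_inv', h2, hX']
      exact mul_inv_cancel₀ (hδ σ))
    have h5 : (K1H12.SE.tot 1 (fun l σ => X' l σ * (K1H12.SE.prd a p (μ σ) (1 / (m l : ℝ)))⁻¹) *
        K1H12.SE.tot C₀ (fun l σ => K1H12.SE.prd a p (μ σ) (1 / (m l : ℝ)))) = K1H12.SE.tot C₀ X' := by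
      rw [K1H12.SE.tot_mul, Matrix.one_mul]
      congr 1
      funext l σ
      rw [Matrix.mul_assoc, Matrix.nonsing_inv_mul _ (hPu l σ), Matrix.mul_one]
    rw [h5] at h4
    exact h4
  refine ⟨δ, hδ, G, fun k D r e hk => ?_⟩
  obtain ⟨⟨M, c₁, hc₁, hwin⟩, c, hc, C, hcount⟩ := hmain k D r e
  refine ⟨⟨M, c₁, hc₁, ?_⟩, c, hc, C, ?_⟩
  · intro K hK hKD C₀ N hN
    obtain ⟨S, hS, hS'⟩ := hwin K hK hKD C₀ N hN
    exact ⟨S, hS, fun m hm hmS => hconv hk K C₀ m (hS' m hm hmS)⟩
  · intro K hK hKD C₀ T hT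
    refine le_trans ?_ (hcount K hK hKD C₀ T hT)
    have h2 : ((Fintype.piFinset fun _ : Fin k => Finset.Icc 2 T).filter fun m => ¬ Generic K C₀ a p μ δ e m) ⊆
        ((Fintype.piFinset fun _ : Fin k => Finset.Icc 2 T).filter fun m =>
          ¬ K1H12.SE.Cn K C₀ a p (fun σ => (μ σ : ℝ)) δ e m) := by
      intro m hm
      rw [Finset.mem_filter] at hm ⊢
      exact ⟨hm.1, fun h3 => hm.2 (hconv hk K C₀ m h3)⟩
    exact_mod_cast Finset.card_le_card h2

end Pool.Agent.Results.MP_f11a48_ag.SuperellipticRelations
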