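import Pool.Agent.K1H12.SE.Main

/-!
# The smallest subtorsor for almost all sums of fibres of superelliptic families

Let `f ∈ ℚ[X]` be monic with `n ≥ 2` distinct real roots `a_i`, `0` in one of the gaps between the roots (or outside), and let
`μ` be a rational number in `(0, 1)`. For `t` in this gap let `P_μ(t)` be the `n × n` matrix of the integrals
`∫ x^j ∏ |x - a_i|^(-μ) |x - t|^(μ - 1) dx` over the `n` segments between consecutive points of `{a_0, …, a_(n-1), t}`. If
`μ = A / N` then up to roots of unity this is the matrix of the periods of the eigenspace of `h^1` of the superelliptic curve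
`y^N = f(x)^A (x - t)^(N - A)` with respect to the action of `μ_N` (over fields which contain the roots of unity); it has rank
`n` if `(n - 1) μ` is not an integer. In particular, all eigenspaces of the curves `C_t : y^N = f(x) (x - t)^(N - 1)` have
this form, with `μ = A / N`, and the eigenspaces for `μ` and `1 - μ` are dual to each other up to a Tate twist.

**Theorem.** Let `μ_1, …, μ_s` be distinct rational numbers in `(0, 1)` with `μ_σ + μ_τ ≠ 1` for `σ ≠ τ`, and if `n > 2`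
assume that `2 μ_σ` and `(n - 1) μ_σ` are not integers. Then for almost all `k`-tuples `m` of natural numbers (all but
`C T^(k - c)` of the tuples in `[2, T]^k`, and all tuples of separated integers in the windows `[N, N + N^c]` without
at most `M` integers) the following holds for `t_l = 1 / m_l`, for all number fields `K ⊂ ℂ` of bounded degree and all
de Rham-Betti objects `M_0` over `K` of bounded rank, with period matrix `C₀` (any invertible complex matrix); the exceptional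
sets depend on `K` and `C₀`, but the numbers `M`, `c`, `C` depend only on the bounds:

* The determinants of the matrices `P_σ(t_l)` do not depend on `l`, `det P_σ(t_l) = δ_σ`.
* Let `M = M_0 ⊕ ⊕_(l, σ) M_(l, σ)`, with period matrix `c_M = C₀ ⊕ ⊕ P_σ(t_l)`, and let `Ω_1` be the smallest
`K`-subtorsor of `GL_(r + s)` which contains `C₀ ⊕ δ_1 ⊕ … ⊕ δ_s`. Then the smallest `K`-subtorsor `Ω_M` containing `c_M`
consists of the matrices `x ⊕ ⊕ X_(l, σ)` such that there are `d_σ` with `x ⊕ d_1 ⊕ … ⊕ d_s ∈ Ω_1` and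
`det X_(l, σ) = d_σ` for all `l, σ`.

So all relations between the periods which come from subtorsors are consequences of the relations of `M_0` and of the objects
`det M_(l, σ)` of rank one, which do not depend on `l`, and the group of `Ω_M` contains the product of the groups
`SL_n`. As `Ω_M ⊆ Ω^dRB_M ⊆ Ω^And_M`, this also says that the classes in all tensor spaces of `M` which are rational for both
structures are invariant under this product. There is no restriction on the degrees of the relations.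

Proof (`Pool/Agent/K1H12/SE`). The matrix `Z` with `P_σ(t) = P_σ(0) Z(t)` is the regular solution of an explicit system over
`ℚ(t)`, it consists of G-functions, and `det Z = 1`. The integrals from `a_i` to `t` are holomorphic on the upper half plane, their
boundary values on the gaps are expressed by the real integrals, with phases. The comparison of the boundary values in two
adjacent gaps gives for each root a unipotent element which preserves all algebraic relations over `ℂ(t)` between the periods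
for all `σ` simultaneously. The double commutators of two such elements separate the exponents, as the number
`(q - 1) (1 - q⁻¹)`, `q = exp (-2 π i μ)`, determines `μ` up to `μ ↦ 1 - μ`, and for each exponent the elements generate `SL_n`.
So all relations over `ℂ(t)` are stable under the product of the groups `SL_n`. By a theorem of helper113 (`Pool/Agent/Y113/GG`)
relations of bounded degree between the values are specialisations of such relations outside of a sparse set, and the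
criterion of `MonodromyTorsors` (`Pool/Agent/Y123/GN`) gives the result for subtorsors without bounds for the degrees.
-/

set_option autoImplicit false

open Polynomial Matrix

namespace Pool.Agent.Results.MP_f11a48_ag.SuperellipticSubtorsors

/-- `T` is (the set of complex points of) a `K`-subtorsor of `GL_B = Iso (M_dR, M_B)`: it is closed under `x y⁻¹ z`, and
it is defined in `GL_B` by polynomials with coefficients in `K`. -/
def IsSubtorsor (K : Subfield ℂ) {B : Type} [Fintype B] [DecidableEq B] (T : Set (Matrix B B ℂ)) : Prop :=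
  (∀ x ∈ T, ∀ y ∈ T, ∀ z ∈ T, x * y⁻¹ * z ∈ T) ∧ ∃ I : Set (MvPolynomial (B × B) K), ∀ x : Matrix B B ℂ, x ∈ T ↔
    IsUnit x ∧ ∀ p ∈ I, MvPolynomial.eval (fun b => x b.1 b.2) (MvPolynomial.map (algebraMap K ℂ) p) = 0

/-- `Ω` is the smallest `K`-subtorsor which contains the period matrix `c` -/
def IsOmega (K : Subfield ℂ) {B : Type} [Fintype B] [DecidableEq B] (c : Matrix B B ℂ) (Ω : Set (Matrix B B ℂ)) : Prop :=
  IsSubtorsor K Ω ∧ c ∈ Ω ∧ ∀ T : Set (Matrix B B ℂ), IsSubtorsor K T → c ∈ T → Ω ⊆ T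

/-- the branch points: `t` inserted at place `p` in the sequence of the `a i` -/
noncomputable def branch {n : ℕ} (a : Fin n → ℝ) (p : Fin (n + 1)) (t : ℝ) : Fin (n + 1) → ℝ :=
  Fin.insertNth (α := fun _ => ℝ) p t a

/-- the periods `∫ x^j ∏ |x - a i|^(-μ) |x - t|^(μ - 1) dx` over the segments `[e l, e (l + 1)]`, `e = branch a p t` -/
noncomputable def periods {n : ℕ} (a : Fin n → ℝ) (p : Fin (n + 1)) (μ : ℚ) (t : ℝ) : Matrix (Fin n) (Fin n) ℂ :=
  Matrix.of fun l j => ((∫ x in (branch a p t l.castSucc)..(branch a p t l.succ),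
    x ^ (j : ℕ) * ((∏ i, |x - a i| ^ (-(μ : ℝ))) * |x - t| ^ ((μ : ℝ) - 1)) : ℝ) : ℂ)

/-- the block matrix `x ⊕ ⊕ X l σ` -/
noncomputable def total {n r s k : ℕ} (x : Matrix (Fin r) (Fin r) ℂ) (X : Fin k → Fin s → Matrix (Fin n) (Fin n) ℂ) :
    Matrix (Fin r ⊕ (Fin n × (Fin k × Fin s))) (Fin r ⊕ (Fin n × (Fin k × Fin s))) ℂ :=
  Matrix.fromBlocks x 0 0 (Matrix.blockDiagonal fun p : Fin k × Fin s => X p.1 p.2)

/-- the block matrix `x ⊕ d_1 ⊕ … ⊕ d_s` -/
noncomputable def addDiag {r s : ℕ} (x : Matrix (Fin r) (Fin r) ℂ) (d : Fin s → ℂ) :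
    Matrix (Fin r ⊕ Fin s) (Fin r ⊕ Fin s) ℂ := Matrix.fromBlocks x 0 0 (Matrix.diagonal d)

/-- the conclusion for the fibres at `t = 1 / m_1, …, 1 / m_k` -/
def Full {n r s k : ℕ} (K : Subfield ℂ) (C₀ : Matrix (Fin r) (Fin r) ℂ) (a : Fin n → ℝ) (p : Fin (n + 1)) (μ : Fin s → ℚ)
    (δ : Fin s → ℂ) (m : Fin k → ℕ) : Prop :=
  (∀ l, StrictMono (branch a p (1 / (m l : ℝ)))) ∧ (∀ l σ, (periods a p (μ σ) (1 / (m l : ℝ))).det = δ σ) ∧
  ∃ Ω₁ : Set (Matrix (Fin r ⊕ Fin s) (Fin r ⊕ Fin s) ℂ), IsOmega K (addDiag C₀ δ) Ω₁ ∧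
    IsOmega K (total C₀ fun l σ => periods a p (μ σ) (1 / (m l : ℝ)))
      {z | ∃ (x : Matrix (Fin r) (Fin r) ℂ) (X : Fin k → Fin s → Matrix (Fin n) (Fin n) ℂ) (d : Fin s → ℂ),
        z = total x X ∧ addDiag x d ∈ Ω₁ ∧ ∀ l σ, (X l σ).det = d σ}

open Classical in
/-- The theorem. The numbers `δ σ` and `G` depend only on the family and the exponents. -/
theorem result (n s : ℕ) (hn : 2 ≤ n) (a : Fin n → ℝ) (f : ℚ[X]) (p : Fin (n + 1)) (μ : Fin s → ℚ)
    (hf : f.map (algebraMap ℚ ℝ) = ∏ i, (X - C (a i))) (ha : StrictMono (branch a p 0))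
    (hμ : ∀ σ, 0 < μ σ ∧ μ σ < 1) (hinj : Function.Injective μ) (hdual : ∀ σ τ, σ ≠ τ → μ σ + μ τ ≠ 1)
    (hirr : 2 < n → ∀ σ, 2 * μ σ ≠ 1 ∧ ∀ j : ℤ, ((n : ℚ) - 1) * μ σ ≠ j) :
    ∃ δ : Fin s → ℂ, (∀ σ, δ σ ≠ 0) ∧ ∃ G : ℕ, ∀ k D r : ℕ, 0 < k →
      (∃ M : ℕ, ∃ c : ℝ, 0 < c ∧ ∀ K : Subfield ℂ, FiniteDimensional ℚ K → Module.finrank ℚ K ≤ D →
        ∀ C₀ : Matrix (Fin r) (Fin r) ℂ, IsUnit C₀ → ∀ N : ℕ, 1 ≤ N →
        ∃ S : Finset ℕ, S.card ≤ M ∧ ∀ m : Fin k → ℕ, (∀ i j, i ≠ j → (G : ℤ) ≤ |(m i : ℤ) - m j|) →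
          (∀ i, N ≤ m i ∧ (m i : ℝ) ≤ N + (N : ℝ) ^ c ∧ m i ∉ S) → Full K C₀ a p μ δ m) ∧
      ∃ c : ℝ, 0 < c ∧ ∃ C : ℝ, ∀ K : Subfield ℂ, FiniteDimensional ℚ K → Module.finrank ℚ K ≤ D →
        ∀ C₀ : Matrix (Fin r) (Fin r) ℂ, IsUnit C₀ → ∀ T : ℕ, 1 ≤ T →
        (((Fintype.piFinset fun _ : Fin k => Finset.Icc 2 T).filter fun m => ¬ Full K C₀ a p μ δ m).card : ℝ) ≤
          C * (T : ℝ) ^ ((k : ℝ) - c) := by
  obtain ⟨δ, hδ, G, hmain⟩ := K1H12.SE.main_se hn hf ha (fun σ => (hμ σ).1) (fun σ => (hμ σ).2) hinj hdual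
    (fun h σ => (hirr h σ).1) (fun h σ j => by
      rw [Nat.cast_sub (by omega)]
      exact (hirr h σ).2 j)
  have hconv : ∀ {k r : ℕ} (hk : 0 < k) (K : Subfield ℂ) (C₀ : Matrix (Fin r) (Fin r) ℂ) (hC₀ : IsUnit C₀) (m : Fin k → ℕ),
      K1H12.SE.Cn K C₀ a p (fun σ => (μ σ : ℝ)) δ 0 m → Full K C₀ a p μ δ m := by
    rintro k r hk K C₀ hC₀ m ⟨h1, h2, h3, -⟩
    have hu1 : IsUnit (addDiag C₀ δ) := K1H12.SE.bt_unit.2 ⟨hC₀, hδ⟩
    have hu2 : IsUnit (K1H12.SE.tot C₀ fun l σ => K1H12.SE.prd a p (μ σ) (1 / (m l : ℝ))) := by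
      refine K1H12.SE.tot_unit.2 ⟨hC₀, fun l σ => (Matrix.isUnit_iff_isUnit_det _).2 (isUnit_iff_ne_zero.2 ?_)⟩
      rw [h2 l σ]
      exact hδ σ
    have h4 := K1H12.SE.smallest_tot (K := K) (by omega) hk hC₀ hδ h2 h3
    refine ⟨h1, h2, K1H12.SE.sm K (addDiag C₀ δ), ⟨K1H12.SE.sm_sub hu1, K1H12.SE.mem_sm_self _, fun T hT hcT x hx => hx T hT hcT⟩, ?_⟩
    have h5 : IsOmega K (total C₀ fun l σ => periods a p (μ σ) (1 / (m l : ℝ)))
        (K1H12.SE.sm K (total C₀ fun l σ => periods a p (μ σ) (1 / (m l : ℝ)))) :=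
      ⟨K1H12.SE.sm_sub hu2, K1H12.SE.mem_sm_self _, fun T hT hcT x hx => hx T hT hcT⟩
    have h6 : K1H12.SE.sm K (total C₀ fun l σ => periods a p (μ σ) (1 / (m l : ℝ))) =
      {z | ∃ (x : Matrix (Fin r) (Fin r) ℂ) (X : Fin k → Fin s → Matrix (Fin n) (Fin n) ℂ) (d : Fin s → ℂ),
        z = total x X ∧ addDiag x d ∈ K1H12.SE.sm K (addDiag C₀ δ) ∧ ∀ l σ, (X l σ).det = d σ} := h4
    rw [h6] at h5
    exact h5
  refine ⟨δ, hδ, G, fun k D r hk => ?_⟩
  obtain ⟨⟨M, c₁, hc₁, hwin⟩, c, hc, C, hcount⟩ := hmain k D r 0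
  refine ⟨⟨M, c₁, hc₁, ?_⟩, c, hc, C, ?_⟩
  · intro K hK hKD C₀ hC₀ N hN
    obtain ⟨S, hS, hS'⟩ := hwin K hK hKD C₀ N hN
    exact ⟨S, hS, fun m hm hmS => hconv hk K C₀ hC₀ m (hS' m hm hmS)⟩
  · intro K hK hKD C₀ hC₀ T hT
    refine le_trans ?_ (hcount K hK hKD C₀ T hT)
    have h2 : ((Fintype.piFinset fun _ : Fin k => Finset.Icc 2 T).filter fun m => ¬ Full K C₀ a p μ δ m) ⊆
        ((Fintype.piFinset fun _ : Fin k => Finset.Icc 2 T).filter fun m =>
          ¬ K1H12.SE.Cn K C₀ a p (fun σ => (μ σ : ℝ)) δ 0 m) := by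
      intro m hm
      rw [Finset.mem_filter] at hm ⊢
      exact ⟨hm.1, fun h3 => hm.2 (hconv hk K C₀ hC₀ m h3)⟩
    exact_mod_cast Finset.card_le_card h2

end Pool.Agent.Results.MP_f11a48_ag.SuperellipticSubtorsors
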